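import Pool.Agent.Helper57.SymLow
import Pool.Agent.Helper57.SymVal

/-!
Lower bound for the symbol length of the mod p Milnor K-groups of the rational function fields over the complex
numbers, in all degrees.
-/

set_option autoImplicit false

open Pool.Agent.Helper57 in
/-- If `2 ≤ n ≤ m`, `p` is a prime and every element of the mod-p Milnor K-group of degree `n` of
`ℂ(x_1, ..., x_m)` is a sum of at most `k` symbols, then
`(m - 1).choose (n - 1) + (m - 1) ≤ n * k`. -/
theorem Pool.Agent.Results.MP_6613b6_al.LowerBound.result (m n p k : ℕ) (hp : p.Prime)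
    (hn : 2 ≤ n) (hnm : n ≤ m)
    (h : ∀ x : PiTensorProduct ℤ
        (fun _ : Fin n => Additive ((FractionRing (MvPolynomial (Fin m) ℂ))ˣ)),
      ∃ r : ℕ, r ≤ k ∧ ∃ a : Fin r → Fin n → (FractionRing (MvPolynomial (Fin m) ℂ))ˣ,
        x - ∑ i, PiTensorProduct.tprod ℤ (fun j => Additive.ofMul (a i j)) ∈
          Submodule.span ℤ
            ({t : PiTensorProduct ℤ
                (fun _ : Fin n => Additive ((FractionRing (MvPolynomial (Fin m) ℂ))ˣ)) |
                ∃ b : Fin n → (FractionRing (MvPolynomial (Fin m) ℂ))ˣ,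
                  (∃ i j : Fin n, i.val + 1 = j.val ∧
                    ((b i : FractionRing (MvPolynomial (Fin m) ℂ)) +
                      (b j : FractionRing (MvPolynomial (Fin m) ℂ)) = 1)) ∧
                  t = PiTensorProduct.tprod ℤ (fun j => Additive.ofMul (b j))} ∪
             {t : PiTensorProduct ℤ
                (fun _ : Fin n => Additive ((FractionRing (MvPolynomial (Fin m) ℂ))ˣ)) |
                ∃ y, t = (p : ℤ) • y})) :
    (m - 1).choose (n - 1) + (m - 1) ≤ n * k := by
  obtain ⟨n, rfl⟩ : ∃ n', n = n' + 1 := ⟨n - 1, by omega⟩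
  obtain ⟨r, rfl⟩ : ∃ r, m = r + 1 := ⟨m - 1, by omega⟩
  rw [Nat.add_sub_cancel, Nat.add_sub_cancel]
  have : Fact p.Prime := ⟨hp⟩
  classical
  obtain ⟨w, hG, x, t, hxx, htx, htt⟩ := SymVal.exists_coord r
  let St : Additive (FractionRing (MvPolynomial (Fin (r + 1)) ℂ))ˣ →
      Additive (FractionRing (MvPolynomial (Fin (r + 1)) ℂ))ˣ → Prop := fun u v =>
    ((u.toMul : (FractionRing (MvPolynomial (Fin (r + 1)) ℂ))ˣ) :
      FractionRing (MvPolynomial (Fin (r + 1)) ℂ)) +
      ((v.toMul : (FractionRing (MvPolynomial (Fin (r + 1)) ℂ))ˣ) :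
        FractionRing (MvPolynomial (Fin (r + 1)) ℂ)) = 1
  have hGood : SymLow.Good r w St := fun u v huv => hG u.toMul v.toMul huv
  have hTest : SymLow.Test w (fun l => Additive.ofMul (x l)) (fun c => Additive.ofMul (t c)) :=
    ⟨hxx, htx, htt⟩
  let c : SymLow.Ind n r → ℂ := fun s => ((Fintype.equivFin (SymLow.Ind n r) s : ℕ) : ℂ)
  have hc : Function.Injective c := fun s s' hs =>
    (Fintype.equivFin (SymLow.Ind n r)).injective (Fin.val_injective (Nat.cast_injective hs))
  obtain ⟨k', hk', a, ha⟩ := h (SymLow.testClass (fun l => Additive.ofMul (x l))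
    (fun c => Additive.ofMul (t c)) c)
  have ha2 : SymLow.testClass (fun l => Additive.ofMul (x l)) (fun c => Additive.ofMul (t c)) c -
      ∑ i, PiTensorProduct.tprod ℤ (fun j => Additive.ofMul (a i j)) ∈
      Submodule.span ℤ (SymLow.Rel p n St) := by
    refine Submodule.span_mono ?_ ha
    rintro y (⟨b, ⟨i, j, hij, hb⟩, rfl⟩ | ⟨y, rfl⟩)
    · exact Or.inl ⟨fun j => Additive.ofMul (b j), ⟨i, j, hij, hb⟩, rfl⟩
    · exact Or.inr ⟨y, rfl⟩
  have hmain := SymLow.main (p := p) (n := n) (r := r) (by omega) (by omega) hGood hTest c hc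
    (fun i j => Additive.ofMul (a i j)) ha2
  exact hmain.trans (Nat.mul_le_mul_left _ hk')
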