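import Pool.Agent.K3.Moves
import Pool.Agent.K3.TL
import Pool.Agent.K3.Frozen

/-!
# Symbol length of `K_3` modulo `3` of `k(x, y, z)`

Every element of `K_3^M(F)/3`, `F = k(x, y, z)`, `k` algebraically closed of characteristic
different from `3` (for example `k = ℂ`), is a sum of at most four symbols.  The statement is
written in the format of the frozen statement of the problem with `m = n = p = 3` and bound `4`.
The general theorem behind it is `Pool.K3.len4` (any field with a primitive cube root of unity in
which any two cubic forms in more than `54` variables have a common nontrivial zero).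
-/

set_option autoImplicit false

namespace Pool.Agent.Results.MP_6613b6_al.SymbolLengthThree

open Pool.K3

/-- Every element of `K_3^M(k(x,y,z))/3` is a sum of at most four symbols. -/
theorem result (k : Type) [Field k] [IsAlgClosed k] (h3 : (3 : k) ≠ 0) :
    ∀ x : PiTensorProduct ℤ
        (fun _ : Fin 3 => Additive ((FractionRing (MvPolynomial (Fin 3) k))ˣ)),
      ∃ r : ℕ, r ≤ 4 ∧ ∃ a : Fin r → Fin 3 → (FractionRing (MvPolynomial (Fin 3) k))ˣ,
        x - ∑ i, PiTensorProduct.tprod ℤ (fun j => Additive.ofMul (a i j)) ∈
          Submodule.span ℤ
            ({t : PiTensorProduct ℤ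
                  (fun _ : Fin 3 => Additive ((FractionRing (MvPolynomial (Fin 3) k))ˣ)) |
                ∃ b : Fin 3 → (FractionRing (MvPolynomial (Fin 3) k))ˣ,
                  (∃ i j : Fin 3, i.val + 1 = j.val ∧
                    ((b i : FractionRing (MvPolynomial (Fin 3) k)) +
                      (b j : FractionRing (MvPolynomial (Fin 3) k)) = 1)) ∧
                  t = PiTensorProduct.tprod ℤ (fun j => Additive.ofMul (b j))} ∪
             {t : PiTensorProduct ℤ
                  (fun _ : Fin 3 => Additive ((FractionRing (MvPolynomial (Fin 3) k))ˣ)) |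
                ∃ y, t = ((3 : ℕ) : ℤ) • y}) := by
  have h3' : (3 : FractionRing (MvPolynomial (Fin 3) k)) ≠ 0 := by
    have h := (algebraMap k (FractionRing (MvPolynomial (Fin 3) k))).injective.ne h3
    rwa [map_ofNat, map_zero] at h
  exact frozen_of_len 4 (len4 (baseOfAlgClosed k _ h3') (milnor _) (tl k 3 3 2 (by norm_num)))

end Pool.Agent.Results.MP_6613b6_al.SymbolLengthThree
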